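import Pool.Agent.H31.BOU.Targets1

/-!
# DFA: convolution on `range p` (MP_c59857_nt board bou)
-/

set_option autoImplicit false

namespace Pool.Agent.H60.BOU
open Finset Pool.Agent.H31.BOU

theorem ee_add (s t : ℝ) : ee (s + t) = ee s * ee t := by
  unfold ee
  rw [← Complex.exp_add]
  congr 1
  push_cast
  ring

theorem ee_zero : ee 0 = 1 := by
  unfold ee
  simp

theorem ee_int (c : ℤ) : ee (c : ℝ) = 1 := by
  unfold ee
  rw [Complex.exp_eq_one_iff]
  refine ⟨c, ?_⟩
  push_cast
  ring

theorem ee_pow (t : ℝ) (b : ℕ) : ee ((b : ℝ) * t) = ee t ^ b := by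
  unfold ee
  rw [← Complex.exp_nat_mul]
  congr 1
  push_cast
  ring

theorem conj_ee (t : ℝ) : (starRingEnd ℂ) (ee t) = ee (-t) := by
  unfold ee
  rw [← Complex.exp_conj]
  congr 1
  rw [map_mul, Complex.conj_ofReal, Complex.conj_I]
  push_cast
  ring

theorem sum_ee {p : ℕ} (hp : 0 < p) (c : ℤ) (h1 : c < p) (h2 : -c < p) :
    ∑ b ∈ range p, ee (((b : ℝ) / p) * (c : ℝ)) = if c = 0 then (p : ℂ) else 0 := by
  have hp' : (p : ℝ) ≠ 0 := by positivity
  split_ifs with hc
  · subst hc
    simp [ee_zero]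
  · have e : ∀ b ∈ range p, ee (((b : ℝ) / p) * (c : ℝ)) = ee ((c : ℝ) / p) ^ b := by
      intro b _
      rw [← ee_pow]
      congr 1
      ring
    rw [sum_congr rfl e]
    have hz : ee ((c : ℝ) / p) ≠ 1 := by
      intro h
      unfold ee at h
      rw [Complex.exp_eq_one_iff] at h
      obtain ⟨n, hn⟩ := h
      have h3 : (2 * Real.pi * ((c : ℝ) / p) : ℝ) = 2 * Real.pi * n := by
        have h4 : ((2 * Real.pi * ((c : ℝ) / p) : ℝ) : ℂ) * Complex.I =
            ((2 * Real.pi * n : ℝ) : ℂ) * Complex.I := by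
          rw [hn]
          push_cast
          ring
        exact_mod_cast mul_right_cancel₀ Complex.I_ne_zero h4
      have h5 : (c : ℝ) / p = n := by
        have := Real.pi_pos
        exact mul_left_cancel₀ (by positivity) h3
      rw [div_eq_iff hp'] at h5
      have h6 : c = n * p := by exact_mod_cast h5
      have h7 : n = 0 := by
        by_contra hn0
        rcases lt_or_gt_of_ne hn0 with h | h
        · have : (p : ℤ) ≤ -c := by
            rw [h6]
            have : n ≤ -1 := by omega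
            nlinarith
          omega
        · have : (p : ℤ) ≤ c := by
            rw [h6]
            have : 1 ≤ n := by omega
            nlinarith
          omega
      rw [h7, zero_mul] at h6
      exact hc h6
    have h8 := geom_sum_eq hz p
    rw [h8]
    have h9 : ee ((c : ℝ) / p) ^ p = 1 := by
      rw [← ee_pow]
      have : (p : ℝ) * ((c : ℝ) / p) = c := by field_simp
      rw [this, ee_int]
    rw [h9, sub_self, zero_div]

theorem pf_DFA : T_DFA := by
  intro p l x k γ Θ hp h1 h2
  have hp' : (p : ℂ) ≠ 0 := by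
    have : p ≠ 0 := hp.ne'
    exact_mod_cast this
  rw [eq_div_iff hp']
  have e1 : ∀ b ∈ range p, ft (Ico x (x + l)) γ ((b : ℝ) / p) * ft (Ico x (x + l)) Θ ((b : ℝ) / p) *
      ee (2 * (k : ℝ) * ((b : ℝ) / p)) = ∑ v ∈ Ico x (x + l), ∑ u ∈ Ico x (x + l),
        γ v * Θ u * ee (((b : ℝ) / p) * ((2 * k - v - u : ℤ) : ℝ)) := by
    intro b _
    unfold ft
    rw [sum_mul_sum, sum_mul]
    refine sum_congr rfl fun v _ => ?_
    rw [sum_mul]
    refine sum_congr rfl fun u _ => ?_
    have : ((b : ℝ) / p) * ((2 * k - v - u : ℤ) : ℝ) = -((b : ℝ) / p * v) + -((b : ℝ) / p * u) +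
        2 * (k : ℝ) * ((b : ℝ) / p) := by
      push_cast
      ring
    rw [this, ee_add, ee_add]
    ring
  rw [sum_congr rfl e1, sum_comm, sum_mul]
  refine sum_congr rfl fun v hv => ?_
  rw [sum_comm]
  rw [mem_Ico] at hv
  have e2 : ∀ u ∈ Ico x (x + l), ∑ b ∈ range p,
      γ v * Θ u * ee (((b : ℝ) / p) * ((2 * k - v - u : ℤ) : ℝ)) =
      if 2 * k - v = u then γ v * Θ u * p else 0 := by
    intro u hu
    rw [mem_Ico] at hu
    rw [← mul_sum, sum_ee hp _ (by omega) (by omega)]
    by_cases h : 2 * k - v = u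
    · rw [if_pos h, if_pos (by omega)]
    · rw [if_neg h, if_neg (by omega), mul_zero]
  rw [sum_congr rfl e2, sum_ite_eq]
  split_ifs with h
  · rfl
  · ring

end Pool.Agent.H60.BOU
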