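import Pool.Agent.H31.BOU.Targets2

/-!
# MTD: the main term at two nodes (board bou)
-/

set_option autoImplicit false

namespace Pool.Agent.H60.BOU.MTDD
open Finset Pool.Agent.H31.BOU

theorem norm_ee (t : ℝ) : ‖ee t‖ = 1 := by
  unfold ee
  exact Complex.norm_exp_ofReal_mul_I _

theorem cs {ι : Type} [Fintype ι] (S : Finset ι) (c w b : ι → ℂ) (A B : ℝ)
    (hw : ∀ i, ‖w i‖ ≤ ‖c i‖) (hb : ∀ i, i ∉ S → b i = 0) (hA : ∑ i ∈ S, ‖c i‖ ^ 2 ≤ A)
    (hB : ∑ i, ‖b i‖ ^ 2 ≤ B) : ‖∑ i, w i * b i‖ ≤ Real.sqrt A * Real.sqrt B := by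
  have e : ∑ i, w i * b i = ∑ i ∈ S, w i * b i := by
    symm
    refine sum_subset (subset_univ S) fun i _ hi => ?_
    rw [hb i hi, mul_zero]
  rw [e]
  calc ‖∑ i ∈ S, w i * b i‖ ≤ ∑ i ∈ S, ‖w i * b i‖ := norm_sum_le _ _
    _ ≤ ∑ i ∈ S, ‖c i‖ * ‖b i‖ := by
        refine sum_le_sum fun i _ => ?_
        rw [norm_mul]
        exact mul_le_mul_of_nonneg_right (hw i) (norm_nonneg _)
    _ ≤ Real.sqrt (∑ i ∈ S, ‖c i‖ ^ 2) * Real.sqrt (∑ i ∈ S, ‖b i‖ ^ 2) :=
        Real.sum_mul_le_sqrt_mul_sqrt _ _ _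
    _ ≤ Real.sqrt A * Real.sqrt B := by
        refine mul_le_mul (Real.sqrt_le_sqrt hA) (Real.sqrt_le_sqrt ?_) (Real.sqrt_nonneg _)
          (Real.sqrt_nonneg _)
        refine le_trans ?_ hB
        exact sum_le_sum_of_subset_of_nonneg (subset_univ S) fun i _ _ => by positivity

theorem near_of_long (hM : T_MON) {T i : ℕ} {m : ℤ} {j j' : ℕ} {κ κ' : ℤ} (hj : j ≤ j')
    (h1 : κ' * 2 ^ j' ≤ κ * 2 ^ j) (h2 : (κ + 2) * 2 ^ j ≤ (κ' + 2) * 2 ^ j')
    (hl : long (rr T) i m j' κ') : near (cc T) i m j κ := by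
  have h3 := ((hM.2.2.1 (rr T) i m j' κ' (cc T) (by unfold rr; omega)
    (by unfold rr cc; omega)).1 hl).1
  obtain ⟨l1, l2⟩ := hl
  have p1 : (0 : ℤ) < 2 ^ i := by positivity
  have p2 : (0 : ℤ) < 2 ^ j' := by positivity
  have hr : (2 : ℤ) ≤ (rr T : ℕ) := by unfold rr; push_cast; omega
  have hC : (0 : ℤ) ≤ (cc T : ℕ) := by positivity
  refine ⟨by omega, ?_, ?_⟩
  · nlinarith [mul_nonneg hC p1.le, mul_le_mul_of_nonneg_right hr p2.le]
  · nlinarith [mul_nonneg hC p1.le, mul_le_mul_of_nonneg_right hr p2.le]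

theorem pf_MTD (hM : T_MON) : T_MTD := by
  classical
  intro ι θ _ _ T q G Q P hq j j' κ κ' k hj h1 h2 hg
  have hS : ∑ i ∈ univ.filter (fun i => near (cc T) (P.sc i) (P.mm i) j κ), ‖P.co i‖ ^ 2 ≤ q := by
    convert hg.fd
  have hw : ∀ i, ‖P.co i * ee (2 * P.be i * (k : ℝ))‖ ≤ ‖P.co i‖ := fun i => by
    rw [norm_mul, norm_ee, mul_one]
  have hal : ∀ i, i ∉ univ.filter (fun i => near (cc T) (P.sc i) (P.mm i) j κ) →
      ¬ alive (cc T) (rr T) q Q P i j κ ∧ ¬ alive (cc T) (rr T) q Q P i j' κ' := by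
    intro i hi
    rw [mem_filter] at hi
    refine ⟨fun h => hi ⟨mem_univ _, near_of_long hM le_rfl le_rfl le_rfl h.1⟩, fun h =>
      hi ⟨mem_univ _, near_of_long hM hj h1 h2 h.1⟩⟩
  refine ⟨?_, ?_⟩
  · have e : MT (cc T) (rr T) q G Q P j κ 0 k - MT (cc T) (rr T) q G Q P j' κ' 0 k =
        ∑ i, (P.co i * ee (2 * P.be i * (k : ℝ))) *
          ((xv (cc T) (rr T) q Q P G j κ - xv (cc T) (rr T) q Q P G j' κ') i) := by
      unfold MT xv
      rw [← sum_sub_distrib]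
      refine sum_congr rfl fun i _ => ?_
      simp only [PiLp.sub_apply, Nat.cast_zero, sub_zero]
      split_ifs <;> ring
    rw [e]
    have hx := cs (univ.filter (fun i => near (cc T) (P.sc i) (P.mm i) j κ)) P.co
      (fun i => P.co i * ee (2 * P.be i * (k : ℝ)))
      (fun i => (xv (cc T) (rr T) q Q P G j κ - xv (cc T) (rr T) q Q P G j' κ') i) q
      (∑ i, ‖(xv (cc T) (rr T) q Q P G j κ - xv (cc T) (rr T) q Q P G j' κ') i‖ ^ 2) hw ?_ hS
      le_rfl
    · rw [EuclideanSpace.norm_eq]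
      exact hx
    · intro i hi
      obtain ⟨a1, a2⟩ := hal i hi
      unfold xv
      simp only [PiLp.sub_apply]
      rw [if_neg a1, if_neg a2, sub_zero]
  · intro t ht hex
    have e : MT (cc T) (rr T) q G Q P j κ t k - MT (cc T) (rr T) q G Q P j κ 0 k =
        ∑ i, (P.co i * ee (2 * P.be i * (k : ℝ))) *
          (if alive (cc T) (rr T) q Q P i j κ then
            ph G (P.be i) j (κ - t) - ph G (P.be i) j κ else 0) := by
      unfold MT
      rw [← sum_sub_distrib]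
      refine sum_congr rfl fun i _ => ?_
      simp only [Nat.cast_zero, sub_zero]
      split_ifs <;> ring
    rw [e]
    have h4 : ∑ i, ‖(if alive (cc T) (rr T) q Q P i j κ then
            ph G (P.be i) j (κ - t) - ph G (P.be i) j κ else 0)‖ ^ 2 ≤ (1 / q ^ 2) ^ 2 := by
      have h5 : ∑ i, (if alive (cc T) (rr T) q Q P i j κ then
          ‖ph G (P.be i) j (κ - t) - ph G (P.be i) j κ‖ ^ 2 else 0) ≤ 1 / q ^ 4 := by
        by_contra h6
        push Not at h6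
        exact hex ⟨t, ht, by convert h6⟩
      have e2 : (1 / q ^ 2) ^ 2 = 1 / q ^ 4 := by
        rw [div_pow, one_pow, ← pow_mul]
      rw [e2]
      refine le_trans (le_of_eq ?_) h5
      refine sum_congr rfl fun i _ => ?_
      split_ifs <;> simp
    have hx := cs (univ.filter (fun i => near (cc T) (P.sc i) (P.mm i) j κ)) P.co
      (fun i => P.co i * ee (2 * P.be i * (k : ℝ))) _ q _ hw ?_ hS h4
    · rwa [Real.sqrt_sq (by positivity)] at hx
    · intro i hi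
      exact if_neg (hal i hi).1

end Pool.Agent.H60.BOU.MTDD
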